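import Mathlib
import Pool.Agent.Helper292.ForceCH
import Pool.Agent.Helper901.GrothFinal

/-!
# MP_9ba03c_gt: products of compact subspaces of `C_p` over Grothendieck spaces

First half: there is a forcing notion all of whose conditions force, over any ground model, that
`ω₁` is preserved and that the continuum hypothesis holds.  Second half: the continuum hypothesis
implies that there are Grothendieck spaces `X`, `Y` and compact sets `K`, `L` of continuous
functions on them such that `K × L` is not Fréchet-Urysohn.
-/

set_option autoImplicit false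

open Cardinal
open Pool.Agent.Helper292.ForceCH (OmegaOnePreserved CHHolds)
open Pool.Agent.Helper901.Groth

namespace Pool.Agent.Results.MP_9ba03c_gt.ProductFails

/-- Some forcing notion forces the continuum hypothesis (and preserves `ω₁`) over any ground model;
and the continuum hypothesis gives Grothendieck spaces `X`, `Y` and compact `K ⊆ C_p(X)`,
`L ⊆ C_p(Y)` such that `K × L` is not Fréchet-Urysohn. -/
theorem result :
    (∃ (P : Type) (_ : Preorder P), Nonempty P ∧
      ∀ p : P, p ∈ OmegaOnePreserved P ∧ p ∈ CHHolds P) ∧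
    ((ℵ₁ : Cardinal.{0}) = 𝔠 →
      ∃ (X Y : Type) (_ : TopologicalSpace X) (_ : TopologicalSpace Y),
        T35Space X ∧ T35Space Y ∧ Grothendieck X ∧ Grothendieck Y ∧
        ∃ (K : Set (Cp X)) (L : Set (Cp Y)), IsCompact K ∧ IsCompact L ∧
          ¬ FrechetUrysohnSpace (K × L)) := by
  refine ⟨?_, fun hCH => ?_⟩
  · obtain ⟨P, hP, hne, h⟩ := Pool.Agent.Helper292.ForceCH.exists_forcing
    exact ⟨P, hP, hne, fun p => ⟨(h p).1, (h p).2.2⟩⟩
  · obtain ⟨X, Y, tX, tY, h1, h2, h3, h4, -, h6⟩ := counterexample hCH
    exact ⟨X, Y, tX, tY, h1, h2, h3, h4, h6⟩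

end Pool.Agent.Results.MP_9ba03c_gt.ProductFails
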