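import Mathlib
import Pool.Agent.Helper901.GrothFinal

/-!
# MP_9ba03c_gt: under the continuum hypothesis the product of compact sets of continuous functions
on Grothendieck spaces need not be Fréchet-Urysohn
-/

set_option autoImplicit false

open Cardinal
open Pool.Agent.Helper901.Groth

namespace Pool.Agent.Results.MP_9ba03c_gt.ProductFailsCH

/-- The continuum hypothesis gives Grothendieck spaces `X`, `Y` and compact `K ⊆ C_p(X)`,
`L ⊆ C_p(Y)` such that `K × L` is not Fréchet-Urysohn. -/
theorem result (hCH : (ℵ₁ : Cardinal.{0}) = 𝔠) :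
    ∃ (X Y : Type) (_ : TopologicalSpace X) (_ : TopologicalSpace Y),
      T35Space X ∧ T35Space Y ∧ Grothendieck X ∧ Grothendieck Y ∧
      ∃ (K : Set (Cp X)) (L : Set (Cp Y)), IsCompact K ∧ IsCompact L ∧
        ¬ FrechetUrysohnSpace (K × L) := by
  obtain ⟨X, Y, tX, tY, h1, h2, h3, h4, -, h6⟩ := counterexample hCH
  exact ⟨X, Y, tX, tY, h1, h2, h3, h4, h6⟩

end Pool.Agent.Results.MP_9ba03c_gt.ProductFailsCH
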